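import Mathlib
import Pool.Agent.Q72.Res.BReg
import Pool.Agent.Q72.Res.Lower

/-!
# MP_c86293_an: the asymptotic rooftop `P[φ](ψ)` can be strictly below `P(ψ, g_φ)`

On the unit ball of `ℂ²` put `ω = (1 + z₁)/(1 - z₁)` and `ζ = z₂/(1 - z₁)`, so that
`Re ω - |ζ|² = (1 - |z|²)/|1 - z₁|² > 0`.  For the negative pluriharmonic functions
`φ = -Re (ω - ζ²)` and `ψ = -Re (ω + ζ²)` one has `ψ ≤ g_φ = -(Re ω - |ζ|²)`, so
`P(ψ, g_φ) = ψ`, but `P[φ](ψ) ≤ (3/2) g_φ`.
-/

set_option autoImplicit false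

open Metric Set Filter Topology

namespace Pool.Agent.Results.MP_c86293_an.AsymptoticRooftopFails

open Q72.Psh Q72.Res

/-- `D` is a bounded pseudoconvex domain: open, connected, bounded, with a continuous
plurisubharmonic exhaustion function. -/
def IsBddPseudoconvex {n : ℕ} (D : Set (Cn n)) : Prop :=
  IsOpen D ∧ IsConnected D ∧ Bornology.IsBounded D ∧
    ∃ u : Cn n → ℝ, ContinuousOn u D ∧ IsPSH D (fun z => ((u z : ℝ) : EReal)) ∧
      ∀ c : ℝ, IsCompact {z ∈ D | u z ≤ c}

theorem isBddPseudoconvex_ball : IsBddPseudoconvex B2 := by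
  have hlt : ∀ {y : Cn 2}, y ∈ B2 → ‖y‖ ^ 2 < 1 := by
    intro y hy
    have : ‖y‖ < 1 := by simpa using hy
    nlinarith [norm_nonneg y]
  have hcont : ContinuousOn (fun z : Cn 2 => 1 / (1 - ‖z‖ ^ 2)) B2 := by
    apply ContinuousOn.div continuousOn_const (by fun_prop)
    intro z hz
    have := hlt hz
    exact ne_of_gt (by linarith)
  refine ⟨isOpen_ball, ⟨⟨0, zero_mem_B2⟩, (convex_ball _ _).isPreconnected⟩, isBounded_ball,
    fun z => 1 / (1 - ‖z‖ ^ 2), hcont, ?_, ?_⟩
  · apply isPSH_of_support isOpen_ball hcont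
    intro a ha ε hε
    have hs := hlt ha
    obtain ⟨s, hse⟩ : ∃ s, s = ‖a‖ ^ 2 := ⟨_, rfl⟩
    refine ⟨fun y => ((1 / (1 - s) - 2 * s / (1 - s) ^ 2 : ℝ) : ℂ) +
      ((2 / (1 - s) ^ 2 : ℝ) : ℂ) * inner ℂ a y, ?_, ?_, ?_⟩
    · exact ((((innerSL ℂ a).differentiable.differentiableOn).const_mul _).const_add _)
    · intro y hy
      have hy1 := hlt hy
      have h2 : ‖y - a‖ ^ 2 = ‖y‖ ^ 2 - 2 * (inner ℂ a y).re + ‖a‖ ^ 2 := by
        have := @norm_sub_sq ℂ _ _ _ _ y a
        have hre : (inner ℂ y a : ℂ).re = (inner ℂ a y : ℂ).re := by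
          rw [← inner_conj_symm, Complex.conj_re]
        rw [this, ← hre]
        rfl
      have h3 := sq_nonneg ‖y - a‖
      rw [Complex.add_re, Complex.ofReal_re, Complex.re_ofReal_mul]
      rw [h2, ← hse] at h3
      rw [← hse] at hs
      have h4 : 0 < 1 - s := by linarith
      have h5 : 0 < 1 - ‖y‖ ^ 2 := by linarith
      have h6 : 2 / (1 - s) ^ 2 * (inner ℂ a y).re ≤ (‖y‖ ^ 2 + s) / (1 - s) ^ 2 := by
        rw [div_mul_eq_mul_div]
        gcongr
        linarith
      have h7 : 1 / (1 - ‖y‖ ^ 2) - (1 / (1 - s) - 2 * s / (1 - s) ^ 2 +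
          (‖y‖ ^ 2 + s) / (1 - s) ^ 2) =
          (‖y‖ ^ 2 - s) ^ 2 / ((1 - ‖y‖ ^ 2) * (1 - s) ^ 2) := by
        field_simp
        ring
      have h8 : 0 ≤ (‖y‖ ^ 2 - s) ^ 2 / ((1 - ‖y‖ ^ 2) * (1 - s) ^ 2) := by positivity
      linarith
    · rw [Complex.add_re, Complex.ofReal_re, Complex.re_ofReal_mul]
      have h2 : (inner ℂ a a : ℂ).re = s := by
        rw [hse]
        have := @inner_self_eq_norm_sq ℂ _ _ _ _ a
        simpa using this
      rw [h2, ← hse]
      have h3 : 1 / (1 - s) - 2 * s / (1 - s) ^ 2 + 2 / (1 - s) ^ 2 * s = 1 / (1 - s) := by ring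
      rw [h3]
      linarith
  · intro c
    rcases le_or_gt c 0 with hc | hc
    · convert isCompact_empty
      ext z
      simp only [Set.mem_ofPred_eq, mem_empty_iff_false, iff_false, not_and, not_le]
      intro hz
      have := hlt hz
      have h1 : 0 < 1 / (1 - ‖z‖ ^ 2) := by
        apply div_pos one_pos; linarith
      linarith
    · have hset : {z : Cn 2 | z ∈ B2 ∧ 1 / (1 - ‖z‖ ^ 2) ≤ c} =
          {z : Cn 2 | ‖z‖ ^ 2 ≤ 1 - 1 / c} := by
        ext z
        simp only [Set.mem_ofPred_eq]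
        constructor
        · rintro ⟨hz, h⟩
          have h1 : 0 < 1 - ‖z‖ ^ 2 := by linarith [hlt hz]
          rw [div_le_iff₀ h1] at h
          have : 1 / c ≤ 1 - ‖z‖ ^ 2 := by
            rw [div_le_iff₀ hc]; linarith
          linarith
        · intro h
          have h0 : 0 < 1 / c := by positivity
          have h1 : ‖z‖ ^ 2 < 1 := by linarith
          refine ⟨by rw [mem_ball_zero_iff]; nlinarith [norm_nonneg z], ?_⟩
          rw [div_le_iff₀ (by linarith)]
          have h2 : 1 / c ≤ 1 - ‖z‖ ^ 2 := by linarith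
          rw [div_le_iff₀ hc] at h2
          linarith
      change IsCompact {z : Cn 2 | z ∈ B2 ∧ 1 / (1 - ‖z‖ ^ 2) ≤ c}
      rw [hset]
      apply Metric.isCompact_of_isClosed_isBounded
      · exact isClosed_le (by fun_prop) continuous_const
      · apply (isBounded_ball (x := (0 : Cn 2)) (r := 2)).subset
        intro z hz
        have h0 : 0 < 1 / c := by positivity
        have h1 : ‖z‖ ^ 2 ≤ 1 - 1 / c := hz
        rw [mem_ball_zero_iff]
        nlinarith [norm_nonneg z]

theorem result :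
    ∃ D : Set (Cn 2), IsBddPseudoconvex D ∧ IsBRegular D ∧ ∃ φ ∈ PSHneg D, ∃ ψ ∈ PSHneg D,
      (∀ z ∈ D, ψ z ≤ res D φ z) ∧ (∀ z ∈ D, roof D ψ (res D φ) z = ψ z) ∧
      ∃ z ∈ D, asymRoof D φ ψ z < roof D ψ (res D φ) z := by
  have hle : ∀ z ∈ B2, ((phim z : ℝ) : EReal) ≤ res B2 (fun z => ((phip z : ℝ) : EReal)) z := by
    intro z hz
    rw [res_phip hz, EReal.coe_le_coe_iff]
    exact phim_le
  have hroof : ∀ z ∈ B2, roof B2 (fun z => ((phim z : ℝ) : EReal))
      (res B2 (fun z => ((phip z : ℝ) : EReal))) z = ((phim z : ℝ) : EReal) := by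
    intro z hz
    apply le_antisymm
    · exact env_le isOpen_ball continuousOn_phim (fun w _ hw t ht =>
        (hw t ht).trans (min_le_left _ _)) hz
    · exact le_env phim_mem.1 (fun y hy => le_min le_rfl (hle y hy)) z
  refine ⟨B2, isBddPseudoconvex_ball, isBRegular_ball two_pos, _, phip_mem, _, phim_mem,
    hle, hroof, 0, zero_mem_B2, ?_⟩
  rw [hroof 0 zero_mem_B2]
  have h1 : asymRoof B2 (fun z => ((phip z : ℝ) : EReal)) (fun z => ((phim z : ℝ) : EReal)) 0 ≤
      ((3 / 2 * Om 0 : ℝ) : EReal) := by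
    apply reg_le isOpen_ball (continuousOn_const.mul continuousOn_Om) _ zero_mem_B2
    intro x hx
    apply iSup_le
    intro C
    refine env_le isOpen_ball (continuousOn_const.mul continuousOn_Om) (fun v hv hvle y hy => ?_) hx
    have hmin : ∀ t ∈ B2, v t ≤ ((min (phip t) (phim t) + |C| : ℝ) : EReal) := by
      intro t ht
      rcases min_choice (phip t) (phim t) with h | h
      · refine (hvle t ht).trans ((min_le_right _ _).trans ?_)
        beta_reduce
        rw [h, ← EReal.coe_add, EReal.coe_le_coe_iff]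
        linarith [le_abs_self C]
      · refine (hvle t ht).trans ((min_le_left _ _).trans ?_)
        rw [h, EReal.coe_le_coe_iff]
        linarith [abs_nonneg C]
    refine bound_min hv (fun t ht => ?_) hmin hy
    refine (hvle t ht).trans ((min_le_left _ _).trans ?_)
    exact phim_mem.2.1 t ht
  refine lt_of_le_of_lt h1 ?_
  rw [EReal.coe_lt_coe_iff]
  unfold Om phim
  rw [om_zero, ze_zero]
  norm_num

end Pool.Agent.Results.MP_c86293_an.AsymptoticRooftopFails
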